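import Mathlib

set_option autoImplicit false

/-!
# MP_6623a1_co: the least order of an abelian group with unique multiset sums is `2^(n-1)`
-/

namespace Pool.Agent.Results.MP_6623a1_co.ExactOrder

/-- The family `g 0, …, g (n-1)` of elements of an abelian group has unique multiset sums: the only
vector `k` of nonnegative integers with `∑ k j = n` and `∑ k j • g j = ∑ g j` is `(1, …, 1)`. -/
def UniqueMultisetSums {G : Type} [AddCommGroup G] {n : ℕ} (g : Fin n → G) : Prop :=
  ∀ k : Fin n → ℕ, ∑ j, k j = n → ∑ j, k j • g j = ∑ j, g j → ∀ j, k j = 1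

/-- `m(n)`: the least order of a finite abelian group containing a family of `n` elements with
unique multiset sums. -/
noncomputable def leastOrder (n : ℕ) : ℕ :=
  sInf {N : ℕ | ∃ (G : Type) (_ : AddCommGroup G), Finite G ∧ Nat.card G = N ∧
    ∃ g : Fin n → G, UniqueMultisetSums g}

/-- A vector `d` with entries `≥ -1`, sum zero and `∑ d j • g j = 0` vanishes. -/
theorem key {G : Type} [AddCommGroup G] {n : ℕ} {g : Fin n → G} (hg : UniqueMultisetSums g)
    (d : Fin n → ℤ) (h1 : ∀ j, -1 ≤ d j) (h2 : ∑ j, d j = 0) (h3 : ∑ j, d j • g j = 0) :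
    ∀ j, d j = 0 := by
  have hk : ∀ j, ((d j + 1).toNat : ℤ) = d j + 1 := fun j => Int.toNat_of_nonneg (by linarith [h1 j])
  have := hg (fun j => (d j + 1).toNat) (by
      zify
      simp only [hk, Finset.sum_add_distrib, h2]
      simp) (by
      have : ∀ j, (d j + 1).toNat • g j = d j • g j + g j := by
        intro j
        rw [← natCast_zsmul, hk j, add_zsmul, one_zsmul]
      simp only [this, Finset.sum_add_distrib, h3, zero_add])
  intro j
  have hj := this j
  have := hk j
  rw [hj] at this
  push_cast at this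
  linarith

/-- The `2^(n-1)` subset sums of the differences `g (j+1) - g 0` are distinct. -/
theorem lower {G : Type} [AddCommGroup G] [Finite G] {n : ℕ} {g : Fin (n + 1) → G}
    (hg : UniqueMultisetSums g) : 2 ^ n ≤ Nat.card G := by
  classical
  have := Fintype.ofFinite G
  have hinj : Function.Injective
      (fun S : Finset (Fin n) => ∑ j ∈ S, (g j.succ - g 0)) := by
    intro S T hST
    simp only at hST
    -- the difference vector
    let e : Fin n → ℤ := fun j => (if j ∈ S then 1 else 0) - (if j ∈ T then 1 else 0)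
    have he1 : ∀ j, -1 ≤ e j ∧ e j ≤ 1 := by
      intro j
      simp only [e]
      split_ifs <;> norm_num
    have hsum : ∑ j, e j • (g j.succ - g 0) = 0 := by
      have : ∀ j, e j • (g j.succ - g 0) = (if j ∈ S then g j.succ - g 0 else 0)
          - (if j ∈ T then g j.succ - g 0 else 0) := by
        intro j
        simp only [e, sub_zsmul]
        split_ifs <;> simp
      rw [Finset.sum_congr rfl (fun j _ => this j), Finset.sum_sub_distrib,
        Finset.sum_ite_mem, Finset.sum_ite_mem, Finset.univ_inter, Finset.univ_inter, hST, sub_self]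
    have main : ∀ e : Fin n → ℤ, (∀ j, -1 ≤ e j) → ∑ j, e j • (g j.succ - g 0) = 0 →
        ∑ j, e j ≤ 1 → ∀ j, e j = 0 := by
      intro e he hs hle j
      have := key hg (Fin.cons (-∑ j, e j) e) (by
        intro i
        refine Fin.cases ?_ ?_ i
        · simpa using hle
        · intro i
          simpa using he i) (by
        rw [Fin.sum_univ_succ]
        simp) (by
        rw [Fin.sum_univ_succ]
        simp only [Fin.cons_zero, Fin.cons_succ]
        simp only [zsmul_sub, Finset.sum_sub_distrib] at hs
        rw [neg_zsmul, Finset.sum_smul]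
        rw [← hs]
        abel) j.succ
      simpa using this
    have hz : ∀ j, e j = 0 := by
      rcases le_total (∑ j, e j) 0 with h | h
      · exact main e (fun j => (he1 j).1) hsum (by linarith)
      · intro j
        have := main (fun j => -e j) (fun j => by linarith [(he1 j).2]) (by
          simp only [neg_zsmul, Finset.sum_neg_distrib, hsum, neg_zero]) (by
          rw [Finset.sum_neg_distrib]; linarith) j
        simpa using this
    ext j
    have := hz j
    simp only [e] at this
    by_cases h1 : j ∈ S <;> by_cases h2 : j ∈ T <;> simp_all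
  have := Fintype.card_le_of_injective _ hinj
  rw [Fintype.card_finset, Fintype.card_fin] at this
  rwa [Nat.card_eq_fintype_card]

/-- The family `0, e_1, …, e_n` in `(ℤ/2)^n`. -/
theorem upper (n : ℕ) : ∃ g : Fin (n + 1) → (Fin n → ZMod 2), UniqueMultisetSums g := by
  classical
  refine ⟨Fin.cons 0 (fun i => Pi.single i 1), ?_⟩
  intro k hk1 hk2
  rw [Fin.sum_univ_succ] at hk1 hk2
  rw [Fin.sum_univ_succ] at hk2
  simp only [Fin.cons_zero, Fin.cons_succ, smul_zero, zero_add] at hk2
  have hodd : ∀ i : Fin n, k i.succ % 2 = 1 := by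
    intro i
    have := congrFun hk2 i
    rw [Finset.sum_apply, Finset.sum_apply] at this
    have e1 : ∀ c : Fin n, (k c.succ • (Pi.single c (1 : ZMod 2) : Fin n → ZMod 2)) i =
        if i = c then (k c.succ : ZMod 2) else 0 := by
      intro c
      rw [Pi.smul_apply, Pi.single_apply]
      split_ifs <;> simp
    have e2 : ∀ c : Fin n, (Pi.single c (1 : ZMod 2) : Fin n → ZMod 2) i =
        if i = c then 1 else 0 := by
      intro c
      rw [Pi.single_apply]
    simp only [e1, e2, Finset.sum_ite_eq, Finset.mem_univ, if_true] at this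
    have h1 : ((k i.succ : ℕ) : ZMod 2) = ((1 : ℕ) : ZMod 2) := by
      rw [this]; simp
    rw [ZMod.natCast_eq_natCast_iff] at h1
    exact h1
  -- write `k i.succ = 1 + 2 a i`
  have hdec : ∀ i : Fin n, k i.succ = 1 + 2 * (k i.succ / 2) := fun i => by
    have := hodd i
    omega
  have hs : ∑ i : Fin n, k i.succ = n + 2 * ∑ i : Fin n, k i.succ / 2 := by
    rw [Finset.mul_sum]
    conv_lhs => rw [Finset.sum_congr rfl (fun i _ => hdec i)]
    rw [Finset.sum_add_distrib]
    simp
  have h0 : ∑ i : Fin n, k i.succ / 2 = 0 := by omega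
  have hk0 : k 0 = 1 := by omega
  intro j
  refine Fin.cases hk0 ?_ j
  intro i
  have := Finset.sum_eq_zero_iff.1 h0 i (Finset.mem_univ i)
  have := hdec i
  omega

/-- **Theorem.** `m(n) = 2^(n-1)` for every `n ≥ 1`. -/
theorem result : ∀ n : ℕ, 1 ≤ n → leastOrder n = 2 ^ (n - 1) := by
  intro n hn
  obtain ⟨n, rfl⟩ : ∃ m, n = m + 1 := ⟨n - 1, by omega⟩
  simp only [Nat.add_sub_cancel]
  have hmem : 2 ^ n ∈ {N : ℕ | ∃ (G : Type) (_ : AddCommGroup G), Finite G ∧ Nat.card G = N ∧
      ∃ g : Fin (n + 1) → G, UniqueMultisetSums g} := by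
    obtain ⟨g, hg⟩ := upper n
    refine ⟨Fin n → ZMod 2, inferInstance, inferInstance, ?_, g, hg⟩
    rw [Nat.card_eq_fintype_card]
    simp
  apply le_antisymm
  · exact Nat.sInf_le hmem
  · apply le_csInf ⟨_, hmem⟩
    rintro N ⟨G, _, _, rfl, g, hg⟩
    exact lower hg

end Pool.Agent.Results.MP_6623a1_co.ExactOrder
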